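import Pool.Agent.W745.RW.Stm

set_option autoImplicit false

open MeasureTheory Filter Topology Complex
open scoped ContDiff

namespace Pool.Agent.W806.RW

open Pool.Agent.W745.RW

noncomputable section

/-- Gaussian four point constants -/
def GG (a b c d : ℤ) : ℂ := CC a b * CC c d + CC a c * CC b d + CC a d * CC b c

lemma CC_symm (a b : ℤ) : CC a b = CC b a := by
  unfold CC
  by_cases h : a + b = 0
  · rw [if_pos h, if_pos (by omega)]
    congr 1
    omega
  · rw [if_neg h, if_neg (by omega)]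

lemma CC_step (a b : ℤ) : CC (a + 1) b = - CC a (b + 1) := by
  unfold CC
  by_cases h : a + 1 + b = 0
  · rw [if_pos h, if_pos (by omega)]
    rcases le_or_gt 0 a with ha | ha
    · have : (a + 1).natAbs = a.natAbs + 1 := by omega
      rw [this, pow_succ]; ring
    · have : a.natAbs = (a + 1).natAbs + 1 := by omega
      rw [this, pow_succ]; ring
  · rw [if_neg h, if_neg (by omega), neg_zero]

lemma CC_step' (a b : ℤ) : CC (a - 1) b = - CC a (b - 1) := by
  have h := CC_step (a - 1) (b - 1)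
  rw [sub_add_cancel, sub_add_cancel] at h
  rw [h, neg_neg]

lemma CC_pm (a b : ℤ) : CC (a + 1) (b - 1) = - CC a b := by
  have h := CC_step a (b - 1)
  rwa [sub_add_cancel] at h

lemma CC_mp (a b : ℤ) : CC (a - 1) (b + 1) = - CC a b := by
  have h := CC_step' a (b + 1)
  rwa [add_sub_cancel_right] at h

lemma GG_tr (a b c d : ℤ) :
    GG (a + 1) b c d + GG a (b + 1) c d + GG a b (c + 1) d + GG a b c (d + 1) = 0 := by
  unfold GG
  rw [CC_step a b, CC_step a c, CC_step a d, CC_step b d, CC_step b c, CC_step c d]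
  ring

lemma GG_tr' (a b c d : ℤ) :
    GG (a - 1) b c d + GG a (b - 1) c d + GG a b (c - 1) d + GG a b c (d - 1) = 0 := by
  unfold GG
  rw [CC_step' a b, CC_step' a c, CC_step' a d, CC_step' b d, CC_step' b c, CC_step' c d]
  ring

lemma GG_x (a b c d : ℤ) :
    (GG a (b+1) c (d-1) - GG a (b+1) (c-1) d - GG (a+1) b c (d-1) + GG (a+1) b (c-1) d)
    - (GG a (b-1) c (d+1) - GG a (b-1) (c+1) d - GG (a-1) b c (d+1) + GG (a-1) b (c+1) d) =
    (CC a (b+1) - CC (a+1) b) * (CC c (d-1) - CC (c-1) d)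
      - (CC a (b-1) - CC (a-1) b) * (CC c (d+1) - CC (c+1) d) := by
  unfold GG
  rw [CC_pm b d, CC_pm a c, CC_pm a d, CC_pm b c, CC_mp b d, CC_mp a c, CC_mp a d, CC_mp b c,
    CC_step b d, CC_step b c, CC_step a c, CC_step a d, CC_step' b d, CC_step' b c,
    CC_step' a c, CC_step' a d]
  ring

lemma GG0 : GG 0 0 0 0 = 3 := by
  unfold GG CC
  norm_num

lemma GGjk (j k : ℕ) (hj : 1 ≤ j) (hk : 1 ≤ k) :
    GG (2 * (j : ℤ)) (-(2 * (j : ℤ))) (2 * (k : ℤ)) (-(2 * (k : ℤ))) =
      1 + if j = k then 1 else 0 := by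
  unfold GG CC
  have e1 : (2 * (j : ℤ)).natAbs = 2 * j := by omega
  have e2 : (2 * (k : ℤ)).natAbs = 2 * k := by omega
  have e3 : (-(2 * (j : ℤ))).natAbs = 2 * j := by omega
  rw [if_pos (by ring), if_pos (by ring), if_neg (by omega), e1, e2, e3]
  have p1 : ((-1 : ℂ)) ^ (2 * j) = 1 := by rw [pow_mul]; norm_num
  have p2 : ((-1 : ℂ)) ^ (2 * k) = 1 := by rw [pow_mul]; norm_num
  rw [p1, p2]
  by_cases h : j = k
  · subst h
    simp
  · have q1 : ¬ (2 * (j : ℤ) + -(2 * (k : ℤ)) = 0) := by omega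
    simp [q1, h]

/-- the moments of `|W_{2j}|²` (with the parentheses intended in `SMo`) -/
def SMo1 : Prop := ∀ (c₀ : ℂ) (r : ℝ) (h : ℕ → ℝ) (u : ℕ → ℂ → ℝ), Sys (Metric.ball c₀ r) h u →
  Bd (Metric.ball c₀ r) h u → ∀ φ, TF (Metric.ball c₀ r) φ → ∀ j k : ℕ, 1 ≤ j → 1 ≤ k →
  Tendsto (fun n =>
    (∫ z, φ z * (‖W (h n) (u n) (2*j) z‖ ^ 2 * ‖W (h n) (u n) (2*k) z‖ ^ 2)) -
      (∫ z, φ z * u n z ^ 4)) atTop
    (𝓝 (if j = k then (- ∫ z, φ z) else (- 2 * ∫ z, φ z)))

theorem mo1 (hW : SW) (hT : ST) (hX : SX) (hA : SAl) : SMo1 := by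
  intro c₀ r h u hS hB φ hφ j k hj hk
  set I : ℂ := ((∫ z, φ z : ℝ) : ℂ) with hI
  let D : ℤ → ℤ → ℤ → ℤ → ℕ → ℂ := fun a b c d n => MM φ h u a b c d n - GG a b c d * I
  have hopen : IsOpen (Metric.ball c₀ r) := Metric.isOpen_ball
  have key := hA D ?_ ?_ ?_ ?_ ?_ ?_ (j : ℤ) (k : ℤ)
  · -- conclusion
    have hconj : ∀ (m : ℕ) (n : ℕ), ∀ z ∈ Metric.ball c₀ r,
        W (h n) (u n) (2 * (m : ℤ)) z * W (h n) (u n) (-(2 * (m : ℤ))) z =
          ((‖W (h n) (u n) (2 * (m : ℤ)) z‖ ^ 2 : ℝ) : ℂ) := by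
      intro m n z hz
      have h4 := (hW _ hopen (h n) (u n) (hS.sol n)).2.2.2 (2 * (m : ℤ)) z hz
      have e1 : (2 * (m : ℤ)).natAbs = 2 * m := by omega
      have p1 : ((-1 : ℂ)) ^ (2 * m) = 1 := by rw [pow_mul]; norm_num
      rw [e1, p1, one_mul] at h4
      rw [← h4, Complex.mul_conj, Complex.normSq_eq_norm_sq]
    have hM1 : ∀ n, MM φ h u (2 * (j : ℤ)) (-(2 * (j : ℤ))) (2 * (k : ℤ)) (-(2 * (k : ℤ))) n =
        ((∫ z, φ z * (‖W (h n) (u n) (2*j) z‖ ^ 2 * ‖W (h n) (u n) (2*k) z‖ ^ 2) : ℝ) : ℂ) := by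
      intro n
      unfold MM
      rw [← integral_complex_ofReal]
      refine integral_congr_ae (Eventually.of_forall fun z => ?_)
      by_cases hz : z ∈ Metric.ball c₀ r
      · show (φ z : ℂ) * (W (h n) (u n) (2 * (j : ℤ)) z * W (h n) (u n) (-(2 * (j : ℤ))) z *
          W (h n) (u n) (2 * (k : ℤ)) z * W (h n) (u n) (-(2 * (k : ℤ))) z) =
          ((φ z * (‖W (h n) (u n) (2*j) z‖ ^ 2 * ‖W (h n) (u n) (2*k) z‖ ^ 2) : ℝ) : ℂ)
        rw [hconj j n z hz, mul_assoc, hconj k n z hz]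
        push_cast
        ring
      · have : φ z = 0 := by
          by_contra hne
          exact hz (hφ.2.2 (subset_tsupport _ hne))
        simp [this]
    have hM0 : ∀ n, MM φ h u 0 0 0 0 n = ((∫ z, φ z * u n z ^ 4 : ℝ) : ℂ) := by
      intro n
      unfold MM
      rw [← integral_complex_ofReal]
      refine integral_congr_ae (Eventually.of_forall fun z => ?_)
      have hw0 : W (h n) (u n) 0 z = (u n z : ℂ) := rfl
      simp only [hw0]
      push_cast
      ring
    have hD : ∀ n, D (2 * (j : ℤ)) (-(2 * (j : ℤ))) (2 * (k : ℤ)) (-(2 * (k : ℤ))) n -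
        D 0 0 0 0 n =
        (((∫ z, φ z * (‖W (h n) (u n) (2*j) z‖ ^ 2 * ‖W (h n) (u n) (2*k) z‖ ^ 2)) -
          (∫ z, φ z * u n z ^ 4) -
            (if j = k then - ∫ z, φ z else - 2 * ∫ z, φ z) : ℝ) : ℂ) := by
      intro n
      simp only [D]
      rw [hM1, hM0, GG0, GGjk j k hj hk, hI]
      split_ifs
      · push_cast
        ring
      · push_cast
        ring
    unfold Null at key
    simp_rw [hD] at key
    have h5 := (Complex.continuous_re.tendsto _).comp key
    simp only [Complex.zero_re, Function.comp_def, Complex.ofReal_re] at h5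
    have h6 := h5.add_const (if j = k then - ∫ z, φ z else - 2 * ∫ z, φ z)
    simpa using h6
  · intro a b c d
    funext n
    simp only [D, MM, GG]
    rw [CC_symm b a]
    congr 1
    · refine integral_congr_ae (Eventually.of_forall fun z => ?_)
      simp only
      ring
    · ring
  · intro a b c d
    funext n
    simp only [D, MM, GG]
    rw [CC_symm c b]
    congr 1
    · refine integral_congr_ae (Eventually.of_forall fun z => ?_)
      simp only
      ring
    · ring
  · intro a b c d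
    funext n
    simp only [D, MM, GG]
    rw [CC_symm d c]
    congr 1
    · refine integral_congr_ae (Eventually.of_forall fun z => ?_)
      simp only
      ring
    · ring
  · intro a b c d
    have h1 := (hT _ hopen h u hS.sol hS.hlim hB φ hφ a b c d).1
    unfold Null at h1 ⊢
    refine h1.congr fun n => ?_
    simp only [D]
    linear_combination (I : ℂ) * GG_tr a b c d
  · intro a b c d
    have h1 := (hT _ hopen h u hS.sol hS.hlim hB φ hφ a b c d).2
    unfold Null at h1 ⊢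
    refine h1.congr fun n => ?_
    simp only [D]
    linear_combination (I : ℂ) * GG_tr' a b c d
  · intro a b c d
    have h1 := hX c₀ r h u hS hB φ hφ a b c d
    unfold Null
    have h2 := h1.sub_const (((CC a (b+1) - CC (a+1) b) * (CC c (d-1) - CC (c-1) d)
      - (CC a (b-1) - CC (a-1) b) * (CC c (d+1) - CC (c+1) d)) * (∫ z, φ z : ℝ))
    rw [sub_self] at h2
    refine h2.congr fun n => ?_
    simp only [D]
    linear_combination (I : ℂ) * GG_x a b c d

end

end Pool.Agent.W806.RW
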